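import Pool.Agent.R57.KempeGen

set_option autoImplicit false

/-!
# Kempe equivalence of the colourings of graphs with independence number two

Let `G` have no three pairwise nonadjacent vertices, so that the classes of a colouring have at most
two vertices. If `G` has a colouring with less than `q` colours, then any two `q`-colourings of `G`
are Kempe equivalent.
-/

namespace Run7.h773.KE

open Finset Pool.Agent.H411R2.WSK Pool.Agent.R57.KG

variable {V : Type} {G : SimpleGraph V} {q : ℕ}

/-- no three pairwise nonadjacent vertices -/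
def Free (G : SimpleGraph V) : Prop :=
  ∀ u v w : V, u ≠ v → u ≠ w → v ≠ w → ¬ G.Adj u v → ¬ G.Adj u w → ¬ G.Adj v w → False

/-- colour classes have at most two vertices -/
theorem Free.two (hG : Free G) (c : G.Coloring (Fin q)) {u v w : V} (huv : u ≠ v) (huw : u ≠ w)
    (h1 : c u = c v) (h2 : c u = c w) : v = w := by
  by_contra hvw
  exact hG u v w huv huw hvw (fun h => c.valid h h1) (fun h => c.valid h h2)
    (fun h => c.valid h (h1.symm.trans h2))

/-- `u` is not the only vertex of its colour -/
def Paired (c : G.Coloring (Fin q)) (u : V) : Prop := ∃ v, v ≠ u ∧ c v = c u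

open Classical in
/-- the number of the used colours -/
noncomputable def used [Fintype V] (c : G.Coloring (Fin q)) : ℕ := (univ.image fun v => c v).card

open Classical in
/-- the number of the paired vertices -/
noncomputable def np [Fintype V] (c : G.Coloring (Fin q)) : ℕ := (univ.filter (Paired c)).card

theorem used_np [Fintype V] (hG : Free G) (c : G.Coloring (Fin q)) :
    2 * used c + np c = 2 * Fintype.card V := by
  classical
  have h1 : (univ : Finset V).card = ∑ b ∈ univ.image (fun v => c v),
      (univ.filter fun v => c v = b).card :=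
    card_eq_sum_card_fiberwise fun v _ => by
      simp
  have h2 : (univ.filter fun v => ¬ Paired c v).card = ∑ b ∈ univ.image (fun v => c v),
      ((univ.filter fun v => ¬ Paired c v).filter fun v => c v = b).card :=
    card_eq_sum_card_fiberwise fun v _ => by
      simp
  have h3 : ∀ b ∈ univ.image (fun v => c v), (univ.filter fun v => c v = b).card +
      ((univ.filter fun v => ¬ Paired c v).filter fun v => c v = b).card = 2 := by
    intro b hb
    obtain ⟨u, -, rfl⟩ := mem_image.1 hb
    by_cases hu : Paired c u
    · obtain ⟨v, hvu, hv⟩ := hu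
      have e1 : (univ.filter fun w => c w = c u) = {u, v} := by
        ext w
        simp only [mem_filter, mem_univ, true_and, mem_insert, mem_singleton]
        constructor
        · intro hw
          by_cases hwu : w = u
          · exact Or.inl hwu
          · right
            exact (hG.two c (Ne.symm hvu) (Ne.symm hwu) hv.symm hw.symm).symm
        · rintro (rfl | rfl)
          · rfl
          · exact hv
      have e2 : ((univ.filter fun w => ¬ Paired c w).filter fun w => c w = c u) = ∅ := by
        rw [filter_filter, filter_eq_empty_iff]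
        rintro w - ⟨hw1, hw2⟩
        apply hw1
        by_cases hwu : w = u
        · exact ⟨v, by rw [hwu]; exact hvu, by rw [hwu]; exact hv⟩
        · exact ⟨u, fun h => hwu h.symm, hw2.symm⟩
      rw [e1, e2, card_pair (Ne.symm hvu), card_empty]
    · have e1 : (univ.filter fun w => c w = c u) = {u} := by
        ext w
        simp only [mem_filter, mem_univ, true_and, mem_singleton]
        constructor
        · intro hw
          by_contra hwu
          exact hu ⟨w, hwu, hw⟩
        · rintro rfl
          rfl
      have e2 : ((univ.filter fun w => ¬ Paired c w).filter fun w => c w = c u) = {u} := by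
        ext w
        simp only [mem_filter, mem_univ, true_and, mem_singleton]
        constructor
        · rintro ⟨-, hw⟩
          by_contra hwu
          exact hu ⟨w, hwu, hw⟩
        · rintro rfl
          exact ⟨hu, rfl⟩
      rw [e1, e2, card_singleton]
  have h4 : ∑ b ∈ univ.image (fun v => c v), ((univ.filter fun v => c v = b).card +
      ((univ.filter fun v => ¬ Paired c v).filter fun v => c v = b).card) = used c * 2 := by
    rw [sum_congr rfl h3, sum_const, smul_eq_mul]
    rfl
  rw [sum_add_distrib, ← h1, ← h2] at h4
  have h5 : np c + (univ.filter fun v => ¬ Paired c v).card = (univ : Finset V).card :=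
    card_filter_add_card_filter_not _
  rw [card_univ] at h4 h5
  omega

open Classical in
/-- the common pairs of two colourings -/
noncomputable def common [Fintype V] (g c : G.Coloring (Fin q)) : Finset (V × V) :=
  univ.filter fun x => x.1 ≠ x.2 ∧ g x.1 = g x.2 ∧ c x.1 = c x.2

theorem mem_common [Fintype V] {g c : G.Coloring (Fin q)} {x y : V} :
    (x, y) ∈ common g c ↔ x ≠ y ∧ g x = g y ∧ c x = c y := by
  simp [common]

/-- changing the colour of `u` keeps the common pairs -/
theorem common_subset [Fintype V] (hG : Free G) {g c c1 : G.Coloring (Fin q)} {u v : V}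
    (huv : u ≠ v) (hg : g u = g v) (hc : c u ≠ c v) (h1 : ∀ w, w ≠ u → c1 w = c w) :
    common g c ⊆ common g c1 := by
  rintro ⟨x, y⟩ hxy
  rw [mem_common] at hxy ⊢
  obtain ⟨hne, hgxy, hcxy⟩ := hxy
  refine ⟨hne, hgxy, ?_⟩
  by_cases hx : x = u
  · subst hx
    have : v = y := hG.two g huv hne hg hgxy
    subst this
    exact absurd hcxy hc
  · by_cases hy : y = u
    · subst hy
      have : v = x := hG.two g huv (Ne.symm hne) hg hgxy.symm
      subst this
      exact absurd hcxy.symm hc
    · rw [h1 x hx, h1 y hy]
      exact hcxy

/-- the partner of `u` is alone in its class -/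
theorem step_single [Fintype V] (hG : Free G) (g c : G.Coloring (Fin q)) {u v : V}
    (huv : u ≠ v) (hg : g u = g v) (hc : c u ≠ c v) (hv : ¬ Paired c v) :
    ∃ c1 : G.Coloring (Fin q), Relation.ReflTransGen KempeStep c c1 ∧
      (common g c).card < (common g c1).card := by
  have hfree : ∀ w, G.Adj u w → c w ≠ c v := by
    intro w hw h
    by_cases hwv : w = v
    · subst hwv
      exact g.valid hw hg
    · exact hv ⟨w, hwv, h⟩
  obtain ⟨c1, h1, h2, h3⟩ := reach_single c u (c v) hfree
  refine ⟨c1, h1, card_lt_card ⟨common_subset hG huv hg hc h3, fun hsub => ?_⟩⟩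
  have hmem : (u, v) ∈ common g c1 := by
    rw [mem_common]
    exact ⟨huv, hg, by rw [h2, h3 v (Ne.symm huv)]⟩
  have := hsub hmem
  rw [mem_common] at this
  exact hc this.2.2

/-- one improvement -/
theorem step [Fintype V] (hG : Free G) (g c : G.Coloring (Fin q)) (hgq : used g < q)
    {u v : V} (huv : u ≠ v) (hg : g u = g v) (hc : c u ≠ c v) :
    ∃ c1 : G.Coloring (Fin q), Relation.ReflTransGen KempeStep c c1 ∧
      (common g c).card < (common g c1).card := by
  classical
  by_cases hA : ∃ u v : V, u ≠ v ∧ g u = g v ∧ c u ≠ c v ∧ ¬ Paired c v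
  · obtain ⟨u, v, h1, h2, h3, h4⟩ := hA
    exact step_single hG g c h1 h2 h3 h4
  push Not at hA
  by_cases hB : ∃ e : Fin q, ∀ w, c w ≠ e
  · obtain ⟨e, he⟩ := hB
    obtain ⟨c1, h1, h2, h3⟩ := reach_single c u e (fun w _ => he w)
    have hcard : (common g c).card ≤ (common g c1).card :=
      card_le_card (common_subset hG huv hg hc h3)
    have hne : c1 v ≠ c1 u := by
      rw [h2, h3 v (Ne.symm huv)]
      exact he v
    have hsing : ¬ Paired c1 u := by
      rintro ⟨w, hwu, hw⟩
      rw [h2, h3 w hwu] at hw
      exact he w hw
    obtain ⟨c2, h4, h5⟩ := step_single hG g c1 (Ne.symm huv) hg.symm hne hsing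
    exact ⟨c2, h1.trans h4, lt_of_le_of_lt hcard h5⟩
  · exfalso
    push Not at hB
    have hP : np g ≤ np c := by
      unfold np
      apply card_le_card
      intro x hx
      rw [mem_filter] at hx ⊢
      refine ⟨mem_univ _, ?_⟩
      obtain ⟨y, hyx, hy⟩ := hx.2
      by_cases hcy : c y = c x
      · exact ⟨y, hyx, hcy⟩
      · exact hA y x hyx hy hcy
    have h1 := used_np hG g
    have h2 := used_np hG c
    have h3 : used c = q := by
      unfold used
      have : (univ.image fun v => c v) = (univ : Finset (Fin q)) := by
        ext e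
        simp only [mem_image, mem_univ, true_and, iff_true]
        obtain ⟨w, hw⟩ := hB e
        exact ⟨w, hw⟩
      rw [this, card_univ, Fintype.card_fin]
    omega

/-- all pairs of `g` become pairs -/
theorem reach_pairs [Fintype V] (hG : Free G) (g : G.Coloring (Fin q)) (hgq : used g < q) :
    ∀ (N : ℕ) (c : G.Coloring (Fin q)), Fintype.card (V × V) - (common g c).card = N →
      ∃ c' : G.Coloring (Fin q), Relation.ReflTransGen KempeStep c c' ∧
        ∀ u v, u ≠ v → g u = g v → c' u = c' v := by
  classical
  intro N
  induction N using Nat.strong_induction_on with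
  | _ N ih =>
  intro c hN
  by_cases h : ∀ u v, u ≠ v → g u = g v → c u = c v
  · exact ⟨c, .refl, h⟩
  push Not at h
  obtain ⟨u, v, huv, hg, hc⟩ := h
  obtain ⟨c1, h1, h2⟩ := step hG g c hgq huv hg hc
  have h3 : (common g c1).card ≤ Fintype.card (V × V) := card_le_univ _
  obtain ⟨c', h4, h5⟩ := ih (Fintype.card (V × V) - (common g c1).card) (by omega) c1 rfl
  exact ⟨c', h1.trans h4, h5⟩

/-- colourings with the same classes differ by a permutation of the colours -/
theorem exists_perm {f g : V → Fin q} (h : ∀ u v, f u = f v ↔ g u = g v) :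
    ∃ σ : Equiv.Perm (Fin q), ∀ v, σ (f v) = g v := by
  classical
  let φ : {x // x ∈ Set.range f} → {x // x ∈ Set.range g} := fun x => ⟨g x.2.choose, ⟨_, rfl⟩⟩
  have hφ : ∀ v, (φ ⟨f v, ⟨v, rfl⟩⟩ : Fin q) = g v := by
    intro v
    have h1 : f (⟨v, rfl⟩ : f v ∈ Set.range f).choose = f v := (⟨v, rfl⟩ : f v ∈ Set.range f).choose_spec
    exact (h _ _).1 h1
  have hb : Function.Bijective φ := by
    constructor
    · rintro ⟨_, u, rfl⟩ ⟨_, v, rfl⟩ huv
      have := congrArg Subtype.val huv
      rw [hφ, hφ] at this
      exact Subtype.ext ((h u v).2 this)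
    · rintro ⟨_, v, rfl⟩
      exact ⟨⟨f v, v, rfl⟩, Subtype.ext (hφ v)⟩
  let e := Equiv.ofBijective φ hb
  refine ⟨e.extendSubtype, fun v => ?_⟩
  rw [Equiv.extendSubtype_apply_of_mem e (f v) ⟨v, rfl⟩]
  exact hφ v

/-- **Main theorem.** -/
theorem kempe [Finite V] (hG : Free G) {k q : ℕ} (hk : G.Colorable k) (hkq : k < q)
    (c c' : G.Coloring (Fin q)) : Relation.ReflTransGen KempeStep c c' := by
  classical
  have := Fintype.ofFinite V
  -- a colouring with the least number of colours
  have hex : ∃ N, ∃ g : G.Coloring (Fin q), used g = N := ⟨_, c, rfl⟩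
  obtain ⟨g, hg⟩ := Nat.find_spec hex
  have hmin : ∀ d : G.Coloring (Fin q), used g ≤ used d := by
    intro d
    rw [hg]
    exact Nat.find_min' hex ⟨d, rfl⟩
  obtain ⟨γ⟩ := hk
  let d : G.Coloring (Fin q) := SimpleGraph.Coloring.mk (fun v => Fin.castLE hkq.le (γ v))
    (fun h he => γ.valid h (Fin.castLE_injective _ he))
  have hd : used d ≤ k := by
    unfold used
    calc (univ.image fun v => d v).card ≤ ((univ : Finset (Fin k)).image (Fin.castLE hkq.le)).card := by
          apply card_le_card
          intro x hx
          obtain ⟨v, -, rfl⟩ := mem_image.1 hx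
          exact mem_image_of_mem _ (mem_univ (γ v))
      _ ≤ (univ : Finset (Fin k)).card := card_image_le
      _ = k := by rw [card_univ, Fintype.card_fin]
  have hgq : used g < q := lt_of_le_of_lt ((hmin d).trans hd) hkq
  have key : ∀ c : G.Coloring (Fin q), Relation.ReflTransGen KempeStep c g := by
    intro c
    obtain ⟨c', h1, h2⟩ := reach_pairs hG g hgq _ c rfl
    have hsub : (univ.filter (Paired g)) ⊆ (univ.filter (Paired c')) := by
      intro x hx
      rw [mem_filter] at hx ⊢
      obtain ⟨y, hyx, hy⟩ := hx.2
      exact ⟨mem_univ _, y, hyx, h2 y x hyx hy⟩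
    have heq : (univ.filter (Paired g)) = (univ.filter (Paired c')) := by
      apply eq_of_subset_of_card_le hsub
      have e1 : 2 * used g + (univ.filter (Paired g)).card = 2 * Fintype.card V := used_np hG g
      have e2 : 2 * used c' + (univ.filter (Paired c')).card = 2 * Fintype.card V := used_np hG c'
      have e3 := hmin c'
      omega
    have hcls : ∀ u v, c' u = c' v ↔ g u = g v := by
      intro u v
      by_cases huv : u = v
      · subst huv; exact ⟨fun _ => rfl, fun _ => rfl⟩
      refine ⟨fun h => ?_, fun h => h2 u v huv h⟩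
      have hu : u ∈ univ.filter (Paired g) := by
        rw [heq, mem_filter]
        exact ⟨mem_univ _, v, Ne.symm huv, h.symm⟩
      obtain ⟨w, hwu, hw⟩ := (mem_filter.1 hu).2
      have h3 : c' w = c' u := h2 w u hwu hw
      have : w = v := hG.two c' (Ne.symm hwu) huv h3.symm h
      subst this
      exact hw.symm
    obtain ⟨σ, hσ⟩ := exists_perm hcls
    have h3 := reach_perm σ c'
    have h4 : permCol σ c' = g := by
      apply DFunLike.ext
      intro v
      rw [permCol_apply]
      exact hσ v
    rw [h4] at h3
    exact h1.trans h3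
  exact (key c).trans (reach_symm (key c'))

end Run7.h773.KE
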